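import Pool.Agent.H8.MC.Targets

/-!
# Spectra over monotone classes, row WMO: from the rules to a tiling of a rectangle
-/

set_option autoImplicit false

namespace Pool.Agent.H37.MC

open Pool.Agent.H8.MC Pool.Agent.H69.VR Pool.Agent.H8.VR Pool.Agent.H69.Sp
open Pool.Agent.H8.PL (GridF Z_GR)

theorem pf_wmo (hGR : Z_GR) : T_WMO := by
  intro Q U Hh Vv V _ G co rp lb ti h
  obtain ⟨o, ho, hol, hob⟩ := h.cor
  have hE : ∀ x y, Ec G co rp x y → rp x ∧ rp y ∧ ¬ (lb x).r = true ∧ ¬ (lb y).l = true ∧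
      ((lb x).b = true ↔ (lb y).b = true) ∧ ((lb x).t = true ↔ (lb y).t = true) := by
    intro x y hxy
    obtain ⟨h1, h2, h3, h4⟩ := h.eE x y hxy
    refine ⟨hxy.1, hxy.2.1, ?_, ?_, ?_, ?_⟩
    · rw [h1]; exact Bool.false_ne_true
    · rw [h2]; exact Bool.false_ne_true
    · rw [h3]
    · rw [h4]
  have hN : ∀ x y, Nc G co rp x y → rp x ∧ rp y ∧ ¬ (lb x).t = true ∧ ¬ (lb y).b = true ∧
      ((lb x).l = true ↔ (lb y).l = true) ∧ ((lb x).r = true ↔ (lb y).r = true) := by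
    intro x y hxy
    obtain ⟨h1, h2, h3, h4⟩ := h.eN x y hxy
    refine ⟨hxy.1, hxy.2.1, ?_, ?_, ?_, ?_⟩
    · rw [h1]; exact Bool.false_ne_true
    · rw [h2]; exact Bool.false_ne_true
    · rw [h3]
    · rw [h4]
  obtain ⟨W, H, g, hW, hH, -, gE, gN, gM, gI⟩ := hGR V rp (Ec G co rp) (Nc G co rp)
    (fun x => (lb x).l = true) (fun x => (lb x).r = true) (fun x => (lb x).b = true)
    (fun x => (lb x).t = true) o hE hN h.fE h.iE h.fN h.iN
    (fun x hx hr => h.xE x hx (Bool.not_eq_true _ ▸ hr))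
    (fun x hx ht => h.xN x hx (Bool.not_eq_true _ ▸ ht)) ho hol hob h.sq
  have hall : ∀ x, rp x → x ∈ {v | ∃ i < W, ∃ j < H, g i j = v} := by
    refine h.con {v | ∃ i < W, ∃ j < H, g i j = v}
      ⟨g 0 0, ⟨0, hW, 0, hH, rfl⟩, (gM 0 hW 0 hH).1⟩ ?_
    rintro x y (hxy | hxy)
    · constructor
      · rintro ⟨i, hi, j, hj, rfl⟩
        have h1 : i + 1 < W := by
          have h2 := (gM i hi j hj).2.2.1
          have h3 : ¬ i + 1 = W := fun h4 => (hE _ _ hxy).2.2.1 (h2.2 h4)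
          omega
        exact ⟨i + 1, h1, j, hj, h.fE _ _ _ (gE i j h1 hj) hxy⟩
      · rintro ⟨i, hi, j, hj, rfl⟩
        have h1 : i ≠ 0 := fun h4 => (hE _ _ hxy).2.2.2.1 ((gM i hi j hj).2.1.2 h4)
        obtain ⟨k, rfl⟩ := Nat.exists_eq_succ_of_ne_zero h1
        exact ⟨k, by omega, j, hj, h.iE _ _ _ (gE k j hi hj) hxy⟩
    · constructor
      · rintro ⟨i, hi, j, hj, rfl⟩
        have h1 : j + 1 < H := by
          have h2 := (gM i hi j hj).2.2.2.2
          have h3 : ¬ j + 1 = H := fun h4 => (hN _ _ hxy).2.2.1 (h2.2 h4)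
          omega
        exact ⟨i, hi, j + 1, h1, h.fN _ _ _ (gN i j hi h1) hxy⟩
      · rintro ⟨i, hi, j, hj, rfl⟩
        have h1 : j ≠ 0 := fun h4 => (hN _ _ hxy).2.2.2.1 ((gM i hi j hj).2.2.2.1.2 h4)
        obtain ⟨k, rfl⟩ := Nat.exists_eq_succ_of_ne_zero h1
        exact ⟨i, hi, k, by omega, h.iN _ _ _ (gN i k hi hj) hxy⟩
  refine ⟨W, H, hW, hH, ?_, fun i j => ti (g i j), ?_, ?_, ?_⟩
  · have hb : Function.Bijective (fun p : Fin W × Fin H =>
        (⟨g p.1 p.2, (gM p.1 p.1.2 p.2 p.2.2).1⟩ : {x // rp x})) := by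
      constructor
      · rintro ⟨i, j⟩ ⟨i', j'⟩ hij
        obtain ⟨h1, h2⟩ := gI i i.2 j j.2 i' i'.2 j' j'.2 (Subtype.ext_iff.1 hij)
        exact Prod.ext (Fin.ext h1) (Fin.ext h2)
      · rintro ⟨x, hx⟩
        obtain ⟨i, hi, j, hj, hij⟩ := hall x hx
        exact ⟨(⟨i, hi⟩, ⟨j, hj⟩), Subtype.ext hij⟩
    rw [← Nat.card_congr (Equiv.ofBijective _ hb), Nat.card_prod, Nat.card_fin, Nat.card_fin]
  · intro x hx y hy
    obtain ⟨h1, h2, h3, h4, h5⟩ := gM x hx y hy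
    have e1 : (lb (g x y)).l = decide (x = 0) := by
      rw [Bool.eq_iff_iff, h2, decide_eq_true_iff]
    have e2 : (lb (g x y)).r = decide (x + 1 = W) := by
      rw [Bool.eq_iff_iff, h3, decide_eq_true_iff]
    have e3 : (lb (g x y)).b = decide (y = 0) := by
      rw [Bool.eq_iff_iff, h4, decide_eq_true_iff]
    have e4 : (lb (g x y)).t = decide (y + 1 = H) := by
      rw [Bool.eq_iff_iff, h5, decide_eq_true_iff]
    have h6 := h.un _ h1
    rw [e1, e2, e3, e4] at h6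
    exact h6
  · intro x y hx hy
    exact h.hh _ _ (gE x y hx hy)
  · intro x y hx hy
    exact h.vv _ _ (gN x y hx hy)

end Pool.Agent.H37.MC
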